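import Mathlib

/-! Trigonometric approximation on the unit circle and the Poisson majorant of a function that
satisfies the maximum principle against all multipliers `exp (- re p)`. -/

set_option autoImplicit false

namespace Pool.Agent.Lib.MP_5c318e_ag.Flat

open Metric Real Complex Polynomial
open scoped ComplexConjugate

/-- a continuous function on the circle is uniformly close to `p + conj q` with `q 0 = 0` -/
theorem trig {F : ℂ → ℂ} (hF : ContinuousOn F (sphere 0 1)) {ε : ℝ} (hε : 0 < ε) :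
    ∃ p q : ℂ[X], q.eval 0 = 0 ∧
      ∀ z ∈ sphere (0 : ℂ) 1, ‖F z - (p.eval z + conj (q.eval z))‖ ≤ ε := by
  have : Fact ((0 : ℝ) < 1) := ⟨one_pos⟩
  have hc : Continuous fun x : AddCircle (1 : ℝ) => F (AddCircle.toCircle x : ℂ) := by
    refine hF.comp_continuous (continuous_induced_dom.comp AddCircle.continuous_toCircle) ?_
    intro x
    exact mem_sphere_zero_iff_norm.2 (Circle.norm_coe _)
  let f : C(AddCircle (1 : ℝ), ℂ) := ⟨_, hc⟩
  have hmem : f ∈ (Submodule.span ℂ (Set.range (@fourier (1 : ℝ)))).topologicalClosure := by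
    rw [span_fourier_closure_eq_top]; trivial
  have hcl : f ∈ closure ((Submodule.span ℂ (Set.range (@fourier (1 : ℝ))) :
      Submodule ℂ C(AddCircle (1 : ℝ), ℂ)) : Set C(AddCircle (1 : ℝ), ℂ)) := hmem
  obtain ⟨t, ht, hd⟩ := Metric.mem_closure_iff.1 hcl ε hε
  have key : ∃ p q : ℂ[X], q.eval 0 = 0 ∧ ∀ x : AddCircle (1 : ℝ),
      t x = p.eval (AddCircle.toCircle x : ℂ) + conj (q.eval (AddCircle.toCircle x : ℂ)) := by
    refine Submodule.span_induction (p := fun t _ => ∃ p q : ℂ[X], q.eval 0 = 0 ∧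
      ∀ x : AddCircle (1 : ℝ), t x = p.eval (AddCircle.toCircle x : ℂ) +
        conj (q.eval (AddCircle.toCircle x : ℂ))) ?_ ?_ ?_ ?_ ht
    · rintro _ ⟨n, rfl⟩
      have hn : ∀ (m : ℕ) (x : AddCircle (1 : ℝ)),
          fourier (m : ℤ) x = (AddCircle.toCircle x : ℂ) ^ m := by
        intro m x
        induction m with
        | zero => simp
        | succ m ih => push_cast; rw [fourier_add, ih, fourier_one, pow_succ]
      rcases n with m | m
      · exact ⟨X ^ m, 0, by simp, fun x => by simpa using hn m x⟩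
      · refine ⟨0, X ^ (m + 1), by simp, fun x => ?_⟩
        have : Int.negSucc m = -((m + 1 : ℕ) : ℤ) := rfl
        rw [this, fourier_neg, hn]
        simp
    · exact ⟨0, 0, by simp, fun x => by simp⟩
    · rintro a b _ _ ⟨p, q, hq, h⟩ ⟨p', q', hq', h'⟩
      refine ⟨p + p', q + q', by simp [hq, hq'], fun x => ?_⟩
      simp only [ContinuousMap.add_apply, h, h', eval_add, map_add]; ring
    · rintro c a _ ⟨p, q, hq, h⟩
      refine ⟨C c * p, C (conj c) * q, by simp [hq], fun x => ?_⟩
      simp only [ContinuousMap.smul_apply, h, eval_mul, eval_C, map_mul, conj_conj, smul_eq_mul]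
      ring
  obtain ⟨p, q, hq, h⟩ := key
  refine ⟨p, q, hq, fun z hz => ?_⟩
  have hz1 : ‖z‖ = 1 := by simpa using hz
  obtain ⟨x, hx⟩ : ∃ x : AddCircle (1 : ℝ), (AddCircle.toCircle x : ℂ) = z := by
    refine ⟨((z.arg / (2 * π) : ℝ) : AddCircle (1 : ℝ)), ?_⟩
    rw [← fourier_one, fourier_coe_apply]
    have h1 := norm_mul_exp_arg_mul_I z
    rw [hz1, ofReal_one, one_mul] at h1
    have hp : (π : ℂ) ≠ 0 := by exact_mod_cast pi_ne_zero
    refine Eq.trans ?_ h1
    congr 1
    push_cast
    field_simp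
  have := (ContinuousMap.dist_apply_le_dist (f := f) (g := t) x).trans hd.le
  rw [dist_eq_norm, h x, hx] at this
  simpa [f, hx] using this

/-- real version -/
theorem trig_re {b : ℂ → ℝ} (hb : ContinuousOn b (sphere 0 1)) {ε : ℝ} (hε : 0 < ε) :
    ∃ p : ℂ[X], ∀ z ∈ sphere (0 : ℂ) 1, |b z - (p.eval z).re| ≤ ε := by
  obtain ⟨p, q, -, h⟩ := trig (F := fun z => (b z : ℂ)) (continuous_ofReal.comp_continuousOn hb) hε
  refine ⟨p + q, fun z hz => ?_⟩
  have := (abs_re_le_norm _).trans (h z hz)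
  simpa using this

/-- the maximum principle on the unit disc against all multipliers -/
def MPx (u : ℂ → ℝ) : Prop :=
  ∀ (p : ℂ[X]) (M : ℝ), (∀ z ∈ sphere (0 : ℂ) 1, u z * Real.exp (-(p.eval z).re) ≤ M) →
    ∀ w ∈ ball (0 : ℂ) 1, u w * Real.exp (-(p.eval w).re) ≤ M

theorem cint {E : Type} [NormedAddCommGroup E] [NormedSpace ℝ E] {f : ℂ → E}
    (hf : ContinuousOn f (sphere 0 1)) : CircleIntegrable f 0 1 :=
  ContinuousOn.circleIntegrable zero_le_one hf

theorem pk_cont {w : ℂ} (hw : w ∈ ball (0 : ℂ) 1) :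
    ContinuousOn (poissonKernel 0 w) (sphere 0 1) := by
  rw [poissonKernel_eq_re_herglotzRieszKernel]
  exact continuous_re.comp_continuousOn (by
    simpa using continuousOn_herglotzRieszKernel_sphere (c := 0) (R := 1) hw)

theorem pk_nonneg {w z : ℂ} (hw : w ∈ ball (0 : ℂ) 1) (hz : z ∈ sphere (0 : ℂ) 1) :
    0 ≤ poissonKernel 0 w z := by
  rw [poissonKernel_def]
  have h1 : ‖z‖ = 1 := by simpa using hz
  have h2 : ‖w‖ < 1 := by simpa using hw
  refine div_nonneg ?_ (by positivity)
  simp only [sub_zero, h1]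
  nlinarith [norm_nonneg w]

theorem pk_le {w z : ℂ} (hw : w ∈ ball (0 : ℂ) 1) (hz : z ∈ sphere (0 : ℂ) 1) :
    poissonKernel 0 w z ≤ (1 + ‖w‖) / (1 - ‖w‖) := by
  rw [poissonKernel_eq_re_herglotzRieszKernel]
  simpa [herglotzRieszKernel_def] using re_herglotzRieszKernel_le hz hw

theorem avg_mono {f g : ℂ → ℝ} (hf : ContinuousOn f (sphere 0 1))
    (hg : ContinuousOn g (sphere 0 1)) (h : ∀ z ∈ sphere (0 : ℂ) 1, f z ≤ g z) :
    circleAverage f 0 1 ≤ circleAverage g 0 1 :=
  circleAverage_mono (cint hf) (cint hg) (by simpa using h)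

theorem avg_lin {f g : ℂ → ℝ} (hf : ContinuousOn f (sphere 0 1))
    (hg : ContinuousOn g (sphere 0 1)) (a b : ℝ) :
    circleAverage (fun z => a * f z + b * g z) 0 1 =
      a * circleAverage f 0 1 + b * circleAverage g 0 1 := by
  have h1 : ContinuousOn (fun z => a • f z) (sphere (0 : ℂ) 1) := hf.const_smul a
  have h2 : ContinuousOn (fun z => b • g z) (sphere (0 : ℂ) 1) := hg.const_smul b
  have := circleAverage_fun_add (cint h1) (cint h2)
  rw [circleAverage_fun_smul, circleAverage_fun_smul] at this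
  simpa using this

theorem pk_poly (p : ℂ[X]) {w : ℂ} (hw : w ∈ ball (0 : ℂ) 1) :
    circleAverage (fun z => poissonKernel 0 w z * (p.eval z).re) 0 1 = (p.eval w).re := by
  have h := DiffContOnCl.circleAverage_poissonKernel_smul (f := fun z => p.eval z) (c := 0)
    (p.differentiable.diffContOnCl) hw
  rw [← h]
  have hi : CircleIntegrable (poissonKernel 0 w • fun z => p.eval z) 0 1 :=
    cint ((pk_cont hw).smul p.continuous.continuousOn)
  have := Complex.reCLM.circleAverage_comp_comm hi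
  simp only [reCLM_apply] at this
  rw [← this]
  congr 1
  ext z
  simp

theorem pk_one {w : ℂ} (hw : w ∈ ball (0 : ℂ) 1) :
    circleAverage (poissonKernel 0 w) 0 1 = 1 := by
  simpa using pk_poly 1 hw

/-- Poisson majorant -/
theorem MPx.poisson {u : ℂ → ℝ} (hu : MPx u) {b : ℂ → ℝ} (hb : ContinuousOn b (sphere 0 1))
    (hub : ∀ z ∈ sphere (0 : ℂ) 1, u z ≤ Real.exp (b z)) {w : ℂ} (hw : w ∈ ball (0 : ℂ) 1) :
    u w ≤ Real.exp (circleAverage (fun z => poissonKernel 0 w z * b z) 0 1) := by
  set m := circleAverage (fun z => poissonKernel 0 w z * b z) 0 1 with hm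
  have key : ∀ ε : ℝ, 0 < ε → u w ≤ Real.exp (m + 2 * ε) := by
    intro ε hε
    obtain ⟨p, hp⟩ := trig_re hb hε
    have h1 := hu p (Real.exp ε) (fun z hz => by
      calc u z * Real.exp (-(p.eval z).re) ≤ Real.exp (b z) * Real.exp (-(p.eval z).re) := by
            gcongr; exact hub z hz
        _ = Real.exp (b z - (p.eval z).re) := by rw [← Real.exp_add]; ring_nf
        _ ≤ Real.exp ε := Real.exp_le_exp.2 (abs_le.1 (hp z hz)).2) w hw
    have hpc : ContinuousOn (fun z => (p.eval z).re) (sphere (0 : ℂ) 1) :=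
      (continuous_re.comp p.continuous).continuousOn
    have h2 : (p.eval w).re ≤ m + ε := by
      rw [← pk_poly p hw]
      calc circleAverage (fun z => poissonKernel 0 w z * (p.eval z).re) 0 1
          ≤ circleAverage (fun z => 1 * (poissonKernel 0 w z * b z) + ε * poissonKernel 0 w z)
              0 1 := by
            refine avg_mono ((pk_cont hw).mul hpc) ((continuousOn_const.mul ((pk_cont hw).mul hb)).add
              (continuousOn_const.mul (pk_cont hw))) fun z hz => ?_
            have := pk_nonneg hw hz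
            have h3 := (abs_le.1 (hp z hz)).1
            nlinarith
        _ = m + ε := by
            rw [avg_lin (f := fun z => poissonKernel 0 w z * b z) ((pk_cont hw).mul hb)
              (pk_cont hw), pk_one hw]
            simp [hm]
    have h3 : u w ≤ Real.exp ε * Real.exp (p.eval w).re := by
      have he := Real.exp_pos (p.eval w).re
      rw [Real.exp_neg, ← div_eq_mul_inv, div_le_iff₀ he] at h1
      exact h1
    refine h3.trans ?_
    rw [← Real.exp_add]
    exact Real.exp_le_exp.2 (by linarith)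
  have ht : Filter.Tendsto (fun ε : ℝ => Real.exp (m + 2 * ε)) (nhdsWithin 0 (Set.Ioi 0))
      (nhds (Real.exp m)) := by
    have : Continuous fun ε : ℝ => Real.exp (m + 2 * ε) := by fun_prop
    simpa using (this.tendsto 0).mono_left nhdsWithin_le_nhds
  exact ge_of_tendsto ht (eventually_nhdsWithin_of_forall key)

/-- at the centre -/
theorem MPx.centre {u : ℂ → ℝ} (hu : MPx u) {b : ℂ → ℝ} (hb : ContinuousOn b (sphere 0 1))
    (hub : ∀ z ∈ sphere (0 : ℂ) 1, u z ≤ Real.exp (b z)) :
    u 0 ≤ Real.exp (circleAverage b 0 1) := by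
  have h := hu.poisson hb hub (w := 0) (by simp)
  rwa [circleAverage_congr_sphere (f₂ := b)] at h
  intro z hz
  have h1 : ‖z‖ = 1 := by simpa using hz
  simp [poissonKernel_def, h1]

/-- Harnack form -/
theorem MPx.harnack {u : ℂ → ℝ} (hu : MPx u) {b : ℂ → ℝ} (hb : ContinuousOn b (sphere 0 1))
    (hb0 : ∀ z ∈ sphere (0 : ℂ) 1, 0 ≤ b z)
    (hub : ∀ z ∈ sphere (0 : ℂ) 1, u z ≤ Real.exp (b z)) {w : ℂ} (hw : w ∈ ball (0 : ℂ) 1) :
    u w ≤ Real.exp ((1 + ‖w‖) / (1 - ‖w‖) * circleAverage b 0 1) := by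
  refine (hu.poisson hb hub hw).trans (Real.exp_le_exp.2 ?_)
  rw [← smul_eq_mul, ← circleAverage_fun_smul]
  refine avg_mono ((pk_cont hw).mul hb) (continuousOn_const.mul hb) fun z hz => ?_
  exact mul_le_mul_of_nonneg_right (pk_le hw hz) (hb0 z hz)

/-- the weighted mean value inequality -/
theorem MPx.submean_at {u : ℂ → ℝ} (hu : MPx u) (hc : ContinuousOn u (sphere 0 1))
    (h0 : ∀ z ∈ sphere (0 : ℂ) 1, 0 ≤ u z) {w : ℂ} (hw : w ∈ ball (0 : ℂ) 1) :
    u w ≤ circleAverage (fun z => poissonKernel 0 w z * u z) 0 1 := by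
  set m := circleAverage (fun z => poissonKernel 0 w z * u z) 0 1 with hm
  have hm0 : 0 ≤ m := circleAverage_nonneg_of_nonneg (by
    intro z hz
    have hz' : z ∈ sphere (0 : ℂ) 1 := by simpa using hz
    exact mul_nonneg (pk_nonneg hw hz') (h0 z hz'))
  refine le_of_forall_pos_le_add fun κ hκ => ?_
  have hpos : ∀ z ∈ sphere (0 : ℂ) 1, 0 < u z + κ := fun z hz => by linarith [h0 z hz]
  have hb : ContinuousOn (fun z => Real.log (u z + κ)) (sphere 0 1) :=
    (hc.add continuousOn_const).log fun z hz => (hpos z hz).ne'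
  have h1 := hu.poisson hb (fun z hz => by rw [Real.exp_log (hpos z hz)]; linarith) hw
  refine h1.trans ?_
  have hmk : 0 < m + κ := by linarith
  rw [← Real.le_log_iff_exp_le hmk]
  calc circleAverage (fun z => poissonKernel 0 w z * Real.log (u z + κ)) 0 1
      ≤ circleAverage (fun z => (m + κ)⁻¹ * (poissonKernel 0 w z * u z) +
          (Real.log (m + κ) + κ / (m + κ) - 1) * poissonKernel 0 w z) 0 1 := by
        refine avg_mono ((pk_cont hw).mul hb) ((continuousOn_const.mul ((pk_cont hw).mul hc)).add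
          (continuousOn_const.mul (pk_cont hw))) fun z hz => ?_
        have h2 := Real.log_le_sub_one_of_pos (div_pos (hpos z hz) hmk)
        rw [Real.log_div (hpos z hz).ne' hmk.ne'] at h2
        have h3 := mul_le_mul_of_nonneg_left h2 (pk_nonneg hw hz)
        have h4 : (u z + κ) / (m + κ) = (m + κ)⁻¹ * u z + κ / (m + κ) := by field_simp
        rw [h4] at h3
        nlinarith
    _ = Real.log (m + κ) := by
        rw [avg_lin (f := fun z => poissonKernel 0 w z * u z) ((pk_cont hw).mul hc) (pk_cont hw),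
          pk_one hw, ← hm]
        field_simp
        ring

theorem MPx.submean {u : ℂ → ℝ} (hu : MPx u) (hc : ContinuousOn u (sphere 0 1))
    (h0 : ∀ z ∈ sphere (0 : ℂ) 1, 0 ≤ u z) : u 0 ≤ circleAverage u 0 1 := by
  have h := hu.submean_at hc h0 (w := 0) (by simp)
  rwa [circleAverage_congr_sphere (f₂ := u)] at h
  intro z hz
  have h1 : ‖z‖ = 1 := by simpa using hz
  simp [poissonKernel_def, h1]

theorem norm_exp_half (a : ℂ) : ‖cexp (-a / 2)‖ ^ 2 = Real.exp (-a.re) := by
  rw [Complex.norm_exp, ← Real.exp_nat_mul]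
  congr 1
  simp
  ring

/-- squared moduli of entire functions -/
theorem mpx_normSq {f : ℂ → ℂ} (hf : Differentiable ℂ f) : MPx fun z => ‖f z‖ ^ 2 := by
  intro p M hM w hw
  have hF : Differentiable ℂ fun z => f z * cexp (-(p.eval z) / 2) :=
    hf.mul ((p.differentiable.neg.div_const 2).cexp)
  have hn : ∀ z, ‖f z * cexp (-(p.eval z) / 2)‖ ^ 2 = ‖f z‖ ^ 2 * Real.exp (-(p.eval z).re) := by
    intro z; rw [norm_mul, mul_pow, norm_exp_half]
  have hM0 : 0 ≤ M := le_trans (by positivity) (hM 1 (by simp))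
  have := Complex.norm_le_of_forall_mem_frontier_norm_le (U := ball (0 : ℂ) 1) isBounded_ball
    hF.diffContOnCl (C := √M) (fun z hz => by
      rw [frontier_ball _ one_ne_zero] at hz
      exact Real.le_sqrt_of_sq_le (by rw [hn]; exact hM z hz)) (subset_closure hw)
  rw [← hn]
  exact (Real.le_sqrt (norm_nonneg _) hM0).1 this

end Pool.Agent.Lib.MP_5c318e_ag.Flat
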