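import Mathlib
import Pool.Agent.Lib.MP_5c318e_ag.E.FlatA

/-! The Hardy space duality step: a sub mean value inequality for the dual metric gives polynomial
sections whose mean energy is almost below the energy at the centre. -/

set_option autoImplicit false

namespace Pool.Agent.Lib.MP_5c318e_ag.Flat

open Metric Real Complex Polynomial Matrix
open scoped ComplexConjugate ComplexOrder

variable {ι : Type} [Fintype ι]

/-- the hermitian form `x^* M x` -/
noncomputable def qf (M : Matrix ι ι ℂ) (x : ι → ℂ) : ℝ := (star x ⬝ᵥ M *ᵥ x).re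

/-- the squared euclidean norm -/
noncomputable def n2 (x : ι → ℂ) : ℝ := ∑ i, ‖x i‖ ^ 2

/-- value of a polynomial vector -/
noncomputable def pv (b : ι → ℂ[X]) (z : ℂ) : ι → ℂ := fun i => (b i).eval z

theorem n2_nonneg (x : ι → ℂ) : 0 ≤ n2 x := Finset.sum_nonneg fun _ _ => by positivity

theorem n2_star (x : ι → ℂ) : n2 (star x) = n2 x := by simp [n2]

theorem n2_eq (x : ι → ℂ) : (x ⬝ᵥ star x).re = n2 x := by
  simp only [dotProduct, n2, re_sum, Pi.star_apply, RCLike.star_def, mul_conj, ofReal_re,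
    Complex.normSq_eq_norm_sq]

theorem n2_add_le (x y : ι → ℂ) : n2 (x + y) ≤ 2 * n2 x + 2 * n2 y := by
  simp only [n2, Finset.mul_sum, ← Finset.sum_add_distrib]
  refine Finset.sum_le_sum fun i _ => ?_
  have h := norm_add_le (x i) (y i)
  have h2 : ‖(x + y) i‖ ^ 2 ≤ (‖x i‖ + ‖y i‖) ^ 2 := by
    rw [Pi.add_apply]; gcongr
  nlinarith [sq_nonneg (‖x i‖ - ‖y i‖)]

theorem n2_le {x : ι → ℂ} {ε : ℝ} (h : ∀ i, ‖x i‖ ≤ ε) : n2 x ≤ Fintype.card ι * ε ^ 2 := by
  have : n2 x ≤ ∑ _i : ι, ε ^ 2 := Finset.sum_le_sum fun i _ => by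
    have := h i
    have := norm_nonneg (x i)
    gcongr
  simpa using this

theorem re_dot_le (x y : ι → ℂ) : -(n2 x / 4 + n2 y) ≤ (x ⬝ᵥ y).re := by
  simp only [n2, dotProduct, re_sum, Finset.sum_div, ← Finset.sum_add_distrib,
    ← Finset.sum_neg_distrib]
  refine Finset.sum_le_sum fun i _ => ?_
  have h := (abs_le.1 (abs_re_le_norm (x i * y i))).1
  rw [norm_mul] at h
  nlinarith [sq_nonneg (‖x i‖ / 2 - ‖y i‖)]

theorem qf_nonneg {M : Matrix ι ι ℂ} (hM : M.PosSemidef) (x : ι → ℂ) : 0 ≤ qf M x :=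
  hM.re_dotProduct_nonneg x

theorem herm_swap {M : Matrix ι ι ℂ} (hM : M.IsHermitian) (x y : ι → ℂ) :
    (star y ⬝ᵥ M *ᵥ x).re = (star x ⬝ᵥ M *ᵥ y).re := by
  have : star y ⬝ᵥ M *ᵥ x = star (star x ⬝ᵥ M *ᵥ y) := by
    rw [← star_dotProduct_star, star_star, star_mulVec, hM.eq, dotProduct_comm,
      ← dotProduct_mulVec, dotProduct_comm]
  rw [this]; simp

theorem qf_add {M : Matrix ι ι ℂ} (hM : M.IsHermitian) (x y : ι → ℂ) :
    qf M (x + y) = qf M x + 2 * (star y ⬝ᵥ M *ᵥ x).re + qf M y := by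
  have := herm_swap hM x y
  simp only [qf, star_add, mulVec_add, add_dotProduct, dotProduct_add, add_re]
  linarith

theorem qf_smul (M : Matrix ι ι ℂ) (c : ℂ) (x : ι → ℂ) : qf M (c • x) = ‖c‖ ^ 2 * qf M x := by
  simp only [qf, star_smul, mulVec_smul, smul_dotProduct, dotProduct_smul, smul_eq_mul,
    ← mul_assoc, RCLike.star_def]
  rw [mul_comm c, conj_mul', ← ofReal_pow, re_ofReal_mul]

theorem qf_le {M : Matrix ι ι ℂ} {K : ℝ} (hK : ∀ i j, ‖M i j‖ ≤ K) (x : ι → ℂ) :
    qf M x ≤ K * Fintype.card ι * n2 x := by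
  have h1 : qf M x ≤ ∑ i, ∑ j, K * (‖x i‖ ^ 2 / 2 + ‖x j‖ ^ 2 / 2) := by
    simp only [qf, dotProduct, mulVec, Finset.mul_sum, re_sum]
    refine Finset.sum_le_sum fun i _ => Finset.sum_le_sum fun j _ => ?_
    refine (re_le_norm _).trans ?_
    simp only [norm_mul, Pi.star_apply, norm_star]
    have h0 := (norm_nonneg _).trans (hK i j)
    calc ‖x i‖ * (‖M i j‖ * ‖x j‖) ≤ ‖x i‖ * (K * ‖x j‖) := by gcongr; exact hK i j
      _ ≤ _ := by nlinarith [mul_nonneg h0 (sq_nonneg (‖x i‖ - ‖x j‖))]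
  refine h1.trans (le_of_eq ?_)
  simp only [n2, ← Finset.mul_sum, Finset.sum_add_distrib, Finset.sum_const, Finset.card_univ,
    nsmul_eq_mul, ← Finset.sum_div]
  ring

theorem exists_entry_bound {H : ℂ → Matrix ι ι ℂ} {S : Set ℂ} (hS : IsCompact S)
    (hH : ContinuousOn H S) : ∃ K : ℝ, 0 < K ∧ ∀ z ∈ S, ∀ x, qf (H z) x ≤ K * n2 x := by
  obtain ⟨C, hC⟩ := hS.exists_bound_of_continuousOn
    (f := fun z => (fun i j => H z i j : ι → ι → ℂ)) hH
  refine ⟨|C| * Fintype.card ι + 1, by positivity, fun z hz x => ?_⟩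
  have h := qf_le (M := H z) (K := |C|) (fun i j =>
    ((norm_le_pi_norm (fun j => H z i j) j).trans
      ((norm_le_pi_norm (fun i j => H z i j) i).trans (hC z hz))).trans (le_abs_self C)) x
  nlinarith [n2_nonneg x]

theorem contOn_qf {H : ℂ → Matrix ι ι ℂ} {x : ℂ → ι → ℂ} {S : Set ℂ} (hH : ContinuousOn H S)
    (hx : ContinuousOn x S) : ContinuousOn (fun z => qf (H z) (x z)) S := by
  rw [continuousOn_iff_continuous_domRestrict] at hH hx ⊢
  exact continuous_re.comp (hx.star.dotProduct (hH.matrix_mulVec hx))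

theorem cont_n2 : Continuous fun x : ι → ℂ => n2 x := by
  unfold n2; fun_prop

omit [Fintype ι] in
theorem cont_pv (b : ι → ℂ[X]) : Continuous (pv b) :=
  continuous_pi fun i => (b i).continuous

theorem contOn_dot {x y : ℂ → ι → ℂ} {S : Set ℂ} (hx : ContinuousOn x S)
    (hy : ContinuousOn y S) : ContinuousOn (fun z => (x z ⬝ᵥ y z).re) S := by
  rw [continuousOn_iff_continuous_domRestrict] at hx hy ⊢
  exact continuous_re.comp (hx.dotProduct hy)

theorem contOn_mulVec {H : ℂ → Matrix ι ι ℂ} {x : ℂ → ι → ℂ} {S : Set ℂ} (hH : ContinuousOn H S)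
    (hx : ContinuousOn x S) : ContinuousOn (fun z => H z *ᵥ x z) S := by
  rw [continuousOn_iff_continuous_domRestrict] at hH hx ⊢
  exact hH.matrix_mulVec hx

theorem avg_poly (p : ℂ[X]) : circleAverage (fun z => (p.eval z).re) 0 1 = (p.eval 0).re := by
  rw [← pk_poly p (w := 0) (by simp)]
  refine circleAverage_congr_sphere fun z hz => ?_
  have h1 : ‖z‖ = 1 := by simpa using hz
  simp [poissonKernel_def, h1]

theorem avg_dot (a b : ι → ℂ[X]) :
    circleAverage (fun z => (pv a z ⬝ᵥ pv b z).re) 0 1 = (pv a 0 ⬝ᵥ pv b 0).re := by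
  have := avg_poly (∑ i, a i * b i)
  simpa only [eval_finsetSum, eval_mul, pv, dotProduct] using this

theorem avg_const (c : ℝ) : circleAverage (fun _ : ℂ => c) 0 1 = c := circleAverage_const c 0 1

theorem avg_lin3 {f g k : ℂ → ℝ} (hf : ContinuousOn f (sphere 0 1))
    (hg : ContinuousOn g (sphere 0 1)) (hk : ContinuousOn k (sphere 0 1)) (a b c : ℝ) :
    circleAverage (fun z => a * f z + b * g z + c * k z) 0 1 =
      a * circleAverage f 0 1 + b * circleAverage g 0 1 + c * circleAverage k 0 1 := by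
  have h := avg_lin (f := fun z => a * f z + b * g z)
    ((continuousOn_const.mul hf).add (continuousOn_const.mul hg)) hk 1 c
  rw [avg_lin hf hg] at h
  simpa using h

variable [DecidableEq ι]

theorem qf_square {H : Matrix ι ι ℂ} (hH : H.PosDef) (b ξ : ι → ℂ) :
    qf H⁻¹ (H *ᵥ star b - ξ) = qf H (star b) - 2 * (b ⬝ᵥ ξ).re + qf H⁻¹ ξ := by
  have hu : IsUnit H.det := (isUnit_iff_isUnit_det H).1 hH.isUnit
  have h1 : H⁻¹ *ᵥ (H *ᵥ star b) = star b := by
    rw [mulVec_mulVec, nonsing_inv_mul _ hu, one_mulVec]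
  rw [sub_eq_add_neg, qf_add hH.inv.1, h1]
  have h2 : qf H⁻¹ (H *ᵥ star b) = qf H (star b) := by
    unfold qf
    rw [h1, star_mulVec, hH.1.eq, ← dotProduct_mulVec]
  have h3 : qf H⁻¹ (-ξ) = qf H⁻¹ ξ := by simp [qf, mulVec_neg]
  have h4 : (star (-ξ) ⬝ᵥ star b).re = -(b ⬝ᵥ ξ).re := by
    rw [star_dotProduct_star]; simp
  rw [h2, h3, h4]; ring

theorem two_re_le {H : Matrix ι ι ℂ} (hH : H.PosDef) (b ξ : ι → ℂ) :
    2 * (b ⬝ᵥ ξ).re ≤ qf H (star b) + qf H⁻¹ ξ := by
  have := qf_nonneg hH.inv.posSemidef (H *ᵥ star b - ξ)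
  rw [qf_square hH] at this
  linarith

theorem contOn_inv {H : ℂ → Matrix ι ι ℂ} {S : Set ℂ} (hH : ContinuousOn H S)
    (hp : ∀ z ∈ S, (H z).det ≠ 0) : ContinuousOn (fun z => (H z)⁻¹) S := by
  have : (fun z => (H z)⁻¹) = fun z => ((H z).det)⁻¹ • (H z).adjugate := by
    funext z; rw [Matrix.inv_def, Ring.inverse_eq_inv]
  rw [this]
  exact ((continuous_id.matrix_det.comp_continuousOn hH).inv₀ hp).smul
    (continuous_id.matrix_adjugate.comp_continuousOn hH)

/-- **Hardy step.** -/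
theorem hardy {H : ℂ → Matrix ι ι ℂ} {H0 : Matrix ι ι ℂ} (hc : ContinuousOn H (sphere 0 1))
    (hp : ∀ z ∈ sphere (0 : ℂ) 1, (H z).PosDef) (h0 : H0.PosDef)
    (hsub : ∀ ξ : ι → ℂ[X],
      qf H0⁻¹ (pv ξ 0) ≤ circleAverage (fun z => qf (H z)⁻¹ (pv ξ z)) 0 1)
    (a : ι → ℂ) {ε : ℝ} (hε : 0 < ε) :
    ∃ b : ι → ℂ[X], pv b 0 = a ∧
      circleAverage (fun z => qf (H z) (star (pv b z))) 0 1 ≤ qf H0 (star a) + ε := by
  have hci : ContinuousOn (fun z => (H z)⁻¹) (sphere 0 1) :=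
    contOn_inv hc fun z hz => (hp z hz).det_pos.ne'
  obtain ⟨K, hK, hKle⟩ := exists_entry_bound (isCompact_sphere 0 1) hc
  obtain ⟨L, hL, hLle⟩ := exists_entry_bound (isCompact_sphere 0 1) hci
  let J : (ι → ℂ[X]) → ℝ := fun b => circleAverage (fun z => qf (H z) (star (pv b z))) 0 1
  have hJc : ∀ b : ι → ℂ[X], ContinuousOn (fun z => qf (H z) (star (pv b z))) (sphere 0 1) :=
    fun b => contOn_qf hc (cont_pv b).star.continuousOn
  have hJ0 : ∀ b, 0 ≤ J b := fun b => circleAverage_nonneg_of_nonneg fun z hz =>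
    qf_nonneg (hp z (by simpa using hz)).posSemidef _
  have hne : (J '' {b | pv b 0 = a}).Nonempty :=
    ⟨_, fun i => C (a i), by ext i; simp [pv], rfl⟩
  have hbd : BddBelow (J '' {b | pv b 0 = a}) := ⟨0, by rintro _ ⟨b, -, rfl⟩; exact hJ0 b⟩
  set r : ℝ := (Fintype.card ι : ℝ) with hr
  have hr0 : 0 ≤ r := Nat.cast_nonneg _
  set δ : ℝ := ε / (8 * K * L) with hδ
  have hδ0 : 0 < δ := by positivity
  set e : ℝ := √(ε / (20 * L * (r + 1))) with he
  have he0 : 0 < e := Real.sqrt_pos.2 (by positivity)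
  have he2 : e ^ 2 = ε / (20 * L * (r + 1)) := Real.sq_sqrt (by positivity)
  obtain ⟨_, ⟨b, hb, rfl⟩, hlt⟩ := Real.lt_sInf_add_pos hne hδ0
  refine ⟨b, hb, ?_⟩
  have hmin : ∀ b', pv b' 0 = a → J b ≤ J b' + δ := fun b' hb' => by
    have := csInf_le hbd ⟨b', hb', rfl⟩
    linarith
  let η : ℂ → ι → ℂ := fun z => H z *ᵥ star (pv b z)
  have hηc : ContinuousOn η (sphere 0 1) := contOn_mulVec hc (cont_pv b).star.continuousOn
  choose P Q hQ hPQ using fun i => trig (F := fun z => η z i)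
    ((continuous_apply i).comp_continuousOn hηc) he0
  have hQ0 : pv Q 0 = 0 := funext hQ
  let E : ℂ → ι → ℂ := fun z => η z - pv P z - star (pv Q z)
  have hE : ∀ z ∈ sphere (0 : ℂ) 1, n2 (E z) ≤ r * e ^ 2 := fun z hz => n2_le fun i => by
    have := hPQ i z hz
    rwa [← sub_sub] at this
  have hQc : ContinuousOn (fun z => n2 (pv Q z)) (sphere (0 : ℂ) 1) :=
    (cont_n2.comp (cont_pv Q)).continuousOn
  have hPQc : ContinuousOn (fun z => (pv Q z ⬝ᵥ pv P z).re) (sphere (0 : ℂ) 1) :=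
    contOn_dot (cont_pv Q).continuousOn (cont_pv P).continuousOn
  set N := circleAverage (fun z => n2 (pv Q z)) 0 1 with hN
  -- approximate orthogonality
  have hN1 : N ≤ 2 * δ * K + 4 * (r * e ^ 2) := by
    let b' : ι → ℂ[X] := fun i => b i - C ((K⁻¹ : ℝ) : ℂ) * Q i
    have hb' : ∀ z, pv b' z = pv b z + ((-K⁻¹ : ℝ) : ℂ) • pv Q z := fun z => by
      ext i; simp [pv, b', sub_eq_add_neg]
    have h1 := hmin b' (by rw [hb', hQ0, hb]; simp)
    have h2 : J b' ≤ circleAverage (fun z => 1 * (1 * qf (H z) (star (pv b z)) +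
        (-2 * K⁻¹) * (pv Q z ⬝ᵥ pv P z).re + (-K⁻¹ / 2) * n2 (pv Q z)) +
          (2 * K⁻¹ * (r * e ^ 2)) * 1) 0 1 := by
      refine avg_mono (hJc b') ?_ fun z hz => ?_
      · exact (continuousOn_const.mul (((continuousOn_const.mul (hJc b)).add
          (continuousOn_const.mul hPQc)).add (continuousOn_const.mul hQc))).add continuousOn_const
      · rw [hb', star_add, qf_add (hp z hz).1, star_star, star_smul, qf_smul, smul_dotProduct]
        have h3 : H z *ᵥ star (pv b z) = pv P z + star (pv Q z) + E z := by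
          simp only [E, η]; abel
        rw [h3, dotProduct_add, dotProduct_add, smul_eq_mul, re_ofReal_mul, add_re, add_re, n2_eq]
        have h4 := re_dot_le (pv Q z) (E z)
        have h5 := hKle z hz (star (pv Q z))
        rw [n2_star] at h5
        have h6 := hE z hz
        have h7 : ‖star ((-K⁻¹ : ℝ) : ℂ)‖ ^ 2 = K⁻¹ * K⁻¹ := by
          rw [norm_star, Complex.norm_real, Real.norm_eq_abs, sq_abs]; ring
        rw [h7]
        have hKi : 0 < K⁻¹ := inv_pos.2 hK
        have h8 : K⁻¹ * K⁻¹ * qf (H z) (star (pv Q z)) ≤ K⁻¹ * n2 (pv Q z) := by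
          calc _ ≤ K⁻¹ * K⁻¹ * (K * n2 (pv Q z)) := by gcongr
            _ = _ := by field_simp
        nlinarith [mul_le_mul_of_nonneg_left h4 hKi.le, mul_le_mul_of_nonneg_left h6 hKi.le]
    rw [avg_lin (f := fun z => 1 * qf (H z) (star (pv b z)) +
        (-2 * K⁻¹) * (pv Q z ⬝ᵥ pv P z).re + (-K⁻¹ / 2) * n2 (pv Q z)) (g := fun _ => 1)
        (((continuousOn_const.mul (hJc b)).add
          (continuousOn_const.mul hPQc)).add (continuousOn_const.mul hQc)) continuousOn_const,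
      avg_lin3 (hJc b) hPQc hQc, avg_dot, avg_const, hQ0, ← hN] at h2
    have h9 : K⁻¹ * N ≤ K⁻¹ * (2 * δ * K + 4 * (r * e ^ 2)) := by
      have : K⁻¹ * (2 * δ * K) = 2 * δ := by field_simp
      simp only [zero_dotProduct, zero_re] at h2
      change J b' ≤ 1 * (1 * J b + _ + _) + _ at h2
      nlinarith
    exact le_of_mul_le_mul_left h9 (inv_pos.2 hK)
  -- the duality inequality
  have hbP : ContinuousOn (fun z => (pv b z ⬝ᵥ pv P z).re) (sphere (0 : ℂ) 1) :=
    contOn_dot (cont_pv b).continuousOn (cont_pv P).continuousOn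
  have h2 : circleAverage (fun z => qf (H z)⁻¹ (pv P z)) 0 1 ≤
      circleAverage (fun z => 1 * ((-1) * qf (H z) (star (pv b z)) +
        2 * (pv b z ⬝ᵥ pv P z).re + (2 * L) * n2 (pv Q z)) + (2 * L * (r * e ^ 2)) * 1) 0 1 := by
    refine avg_mono (contOn_qf hci (cont_pv P).continuousOn) ?_ fun z hz => ?_
    · exact (continuousOn_const.mul (((continuousOn_const.mul (hJc b)).add
        (continuousOn_const.mul hbP)).add (continuousOn_const.mul hQc))).add continuousOn_const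
    · have h3 := qf_square (hp z hz) (pv b z) (pv P z)
      have h4 : H z *ᵥ star (pv b z) - pv P z = star (pv Q z) + E z := by
        simp only [E, η]; abel
      have h5 := hLle z hz (star (pv Q z) + E z)
      have h6 := n2_add_le (star (pv Q z)) (E z)
      rw [n2_star] at h6
      rw [h4] at h3
      have h7 := hE z hz
      nlinarith [mul_le_mul_of_nonneg_left h6 hL.le, mul_le_mul_of_nonneg_left h7 hL.le]
  rw [avg_lin (f := fun z => (-1) * qf (H z) (star (pv b z)) +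
        2 * (pv b z ⬝ᵥ pv P z).re + (2 * L) * n2 (pv Q z)) (g := fun _ => 1)
        (((continuousOn_const.mul (hJc b)).add
          (continuousOn_const.mul hbP)).add (continuousOn_const.mul hQc)) continuousOn_const,
      avg_lin3 (hJc b) hbP hQc, avg_dot, avg_const, hb, ← hN] at h2
  have h3 := hsub P
  have h4 := two_re_le h0 a (pv P 0)
  have h5 : L * (δ * K) = ε / 8 := by rw [hδ]; field_simp
  have h6 : L * (r * e ^ 2) ≤ ε / 20 := by
    rw [he2, show L * (r * (ε / (20 * L * (r + 1)))) = ε / 20 * (r / (r + 1)) by field_simp]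
    have : r / (r + 1) ≤ 1 := (div_le_one (by positivity)).2 (by linarith)
    nlinarith
  nlinarith [mul_le_mul_of_nonneg_left hN1 hL.le]

end Pool.Agent.Lib.MP_5c318e_ag.Flat
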